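import Pool.Agent.Q151.LQ.MV
import Pool.Agent.Q253.LM.Stm

set_option autoImplicit false

/-!
# Project LM (helper253), job LM-MN (helper38): the mean value of a power of a cosine series
-/

namespace Pool.Agent.Q38.LM

open MeasureTheory Filter Topology Set Complex
open Pool.Agent.Q253.LM
open Pool.Agent.Q151.LQ (mean_series cesaro mn)

/-- the power of an absolutely convergent series -/
theorem pow_tsum {J : Type} (x : J → ℂ) (hx : Summable (fun j => ‖x j‖)) (k : ℕ) :
    Summable (fun t : Fin k → J => ‖∏ l, x (t l)‖) ∧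
      (∑' j, x j) ^ k = ∑' t : Fin k → J, ∏ l, x (t l) := by
  induction k with
  | zero =>
    refine ⟨(hasSum_fintype _).summable, ?_⟩
    rw [pow_zero, tsum_fintype, Fintype.sum_unique]
    simp
  | succ k ih =>
    have h1 := hx.mul_norm ih.1
    constructor
    · rw [← (Fin.consEquiv (fun _ => J)).summable_iff]
      refine h1.congr fun z => ?_
      simp only [Function.comp_apply, Fin.consEquiv_apply, Fin.prod_univ_succ, Fin.cons_zero,
        Fin.cons_succ]
    · rw [pow_succ', ih.2, tsum_mul_tsum_of_summable_norm hx ih.1,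
        ← (Fin.consEquiv (fun _ => J)).tsum_eq]
      refine tsum_congr fun z => ?_
      simp only [Fin.consEquiv_apply, Fin.prod_univ_succ, Fin.cons_zero, Fin.cons_succ]

section

variable {ι : Type} (g c : ι → ℝ)

theorem norm_term (hc : ∀ i, 0 < c i) (u : ℝ) (j : ι × Bool) :
    ‖((c j.1 : ℝ) : ℂ) * cexp (I * fr g j * u)‖ = c j.1 := by
  rw [norm_mul, Complex.norm_real, Real.norm_eq_abs, abs_of_pos (hc _)]
  rw [show (I * fr g j * u : ℂ) = ((fr g j * u : ℝ) : ℂ) * I from by push_cast; ring]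
  rw [Complex.norm_exp_ofReal_mul_I, mul_one]

theorem sum_c (hc : ∀ i, 0 < c i) (hs : Summable c) : Summable (fun j : ι × Bool => c j.1) := by
  have h := hs.mul_of_nonneg (g := fun _ : Bool => (1 : ℝ)) (hasSum_fintype _).summable
    (fun i => (hc i).le) (fun _ => zero_le_one)
  simpa using h

theorem cos_series (hc : ∀ i, 0 < c i) (hs : Summable c) (u : ℝ) :
    ((∑' i, 2 * c i * Real.cos (g i * u) : ℝ) : ℂ) =
      ∑' j : ι × Bool, ((c j.1 : ℝ) : ℂ) * cexp (I * fr g j * u) := by
  have h1 : Summable (fun j : ι × Bool => ((c j.1 : ℝ) : ℂ) * cexp (I * fr g j * u)) := by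
    refine Summable.of_norm ?_
    simp only [norm_term g c hc u]
    exact sum_c c hc hs
  rw [h1.tsum_prod, Complex.ofReal_tsum]
  refine tsum_congr fun i => ?_
  rw [tsum_bool]
  simp only [fr, if_true]
  simp only [Bool.false_eq_true, if_false]
  push_cast
  rw [Complex.cos]
  rw [show (g i * u * I : ℂ) = I * g i * u from by ring,
    show (-(g i * u : ℂ)) * I = I * -g i * u from by ring]
  ring

theorem cos_bound (hc : ∀ i, 0 < c i) (i : ι) (u : ℝ) : ‖2 * c i * Real.cos (g i * u)‖ ≤ 2 * c i := by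
  rw [norm_mul, Real.norm_eq_abs, Real.norm_eq_abs, abs_of_pos (by have := hc i; positivity)]
  have h1 := Real.abs_cos_le_one (g i * u)
  have h2 := hc i
  nlinarith

theorem cos_cont (hc : ∀ i, 0 < c i) (hs : Summable c) :
    Continuous (fun u : ℝ => ∑' i, 2 * c i * Real.cos (g i * u)) :=
  continuous_tsum (fun i => by fun_prop) (hs.mul_left 2) (fun i u => cos_bound g c hc i u)

theorem cos_le (hc : ∀ i, 0 < c i) (hs : Summable c) (u : ℝ) :
    |∑' i, 2 * c i * Real.cos (g i * u)| ≤ ∑' i, 2 * c i := by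
  have h1 : Summable (fun i => ‖2 * c i * Real.cos (g i * u)‖) :=
    Summable.of_nonneg_of_le (fun i => norm_nonneg _) (fun i => cos_bound g c hc i u) (hs.mul_left 2)
  refine (norm_tsum_le_tsum_norm h1).trans ?_
  exact h1.tsum_le_tsum (fun i => cos_bound g c hc i u) (hs.mul_left 2)

theorem mean_pow (k : ℕ) (hc : ∀ i, 0 < c i) (hs : Summable c) :
    Tendsto (fun U : ℝ => (1 / U) * ∫ u in (0 : ℝ)..U, (∑' i, 2 * c i * Real.cos (g i * u)) ^ k)
      atTop (𝓝 (T g c k)) := by
  have hcnt : Countable ι := by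
    have h1 := hs.countable_support
    have h2 : Function.support c = Set.univ := by
      ext i
      simp [(hc i).ne']
    rw [h2] at h1
    exact Set.countable_univ_iff.mp h1
  have hw : Summable (fun t : Fin k → ι × Bool => ∏ l, c (t l).1) := by
    have h1 := (pow_tsum (fun j : ι × Bool => ((c j.1 : ℝ) : ℂ)) (by
      have h2 := sum_c c hc hs
      refine h2.congr fun j => ?_
      rw [Complex.norm_real, Real.norm_eq_abs, abs_of_pos (hc _)]) k).1
    refine h1.congr fun t => ?_
    rw [← Complex.ofReal_prod, Complex.norm_real, Real.norm_eq_abs,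
      abs_of_pos (Finset.prod_pos fun l _ => hc _)]
  have h1 := mean_series (J := Fin k → ι × Bool) (fun t => ∏ l, c (t l).1)
    (fun t => ∑ l, fr g (t l)) (fun t => (Finset.prod_pos fun l _ => hc _).le) hw
    (fun u => (∑' i, 2 * c i * Real.cos (g i * u)) ^ k) ?_
  · have h2 : T g c k = ∑' t : Fin k → ι × Bool,
        if ∑ l, fr g (t l) = 0 then ∏ l, c (t l).1 else 0 := by
      unfold T
      refine tsum_congr fun t => ?_
      split_ifs <;> rfl
    rw [h2]
    exact h1
  · intro u
    have h2 := (pow_tsum (fun j : ι × Bool => ((c j.1 : ℝ) : ℂ) * cexp (I * fr g j * u)) (by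
      simp only [norm_term g c hc u]
      exact sum_c c hc hs) k).2
    rw [← cos_series g c hc hs u] at h2
    rw [Complex.ofReal_pow, h2]
    refine tsum_congr fun t => ?_
    rw [Finset.prod_mul_distrib, ← Complex.exp_sum, Complex.ofReal_prod]
    congr 2
    rw [Complex.ofReal_sum, Finset.mul_sum, Finset.sum_mul]

end

/-- the error of the power -/
theorem pow_err (M B : ℝ) (hM : 0 ≤ M) (k : ℕ) : ∃ C : ℝ, ∀ x y : ℝ, |x| ≤ M → |y| ≤ B →
    |(x + y) ^ k - x ^ k| ≤ C * |y| := by
  induction k with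
  | zero =>
    refine ⟨0, fun x y _ _ => ?_⟩
    simp
  | succ k ih =>
    obtain ⟨C, hC⟩ := ih
    refine ⟨(M + B) * C + M ^ k, fun x y hx hy => ?_⟩
    have h1 := hC x y hx hy
    have e1 : (x + y) ^ (k + 1) - x ^ (k + 1) = (x + y) * ((x + y) ^ k - x ^ k) + y * x ^ k := by ring
    have h2 : |x + y| ≤ M + B := (abs_add_le x y).trans (add_le_add hx hy)
    have h3 : |x ^ k| ≤ M ^ k := by
      rw [abs_pow]
      exact pow_le_pow_left₀ (abs_nonneg x) hx k
    rw [e1]
    calc |(x + y) * ((x + y) ^ k - x ^ k) + y * x ^ k| ≤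
          |(x + y) * ((x + y) ^ k - x ^ k)| + |y * x ^ k| := abs_add_le _ _
      _ = |x + y| * |(x + y) ^ k - x ^ k| + |y| * |x ^ k| := by rw [abs_mul, abs_mul]
      _ ≤ (M + B) * (C * |y|) + |y| * M ^ k := by
          have h4 : 0 ≤ M + B := (abs_nonneg _).trans h2
          gcongr
      _ = ((M + B) * C + M ^ k) * |y| := by ring

/-- **LM-MN** -/
theorem t_MN : S_MN := by
  intro ι g c r k hc hs hr hB h0
  obtain ⟨B, hB⟩ := hB
  obtain ⟨f, hf⟩ : ∃ f : ℝ → ℝ, f = fun u => ∑' i, 2 * c i * Real.cos (g i * u) := ⟨_, rfl⟩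
  obtain ⟨M, hM⟩ : ∃ M : ℝ, M = ∑' i, 2 * c i := ⟨_, rfl⟩
  have hfM : ∀ u, |f u| ≤ M := by
    intro u
    rw [hf, hM]
    exact cos_le g c hc hs u
  have hM0 : 0 ≤ M := (abs_nonneg _).trans (hfM 0)
  have hfc : Continuous f := by
    rw [hf]
    exact cos_cont g c hc hs
  obtain ⟨C, hC⟩ := pow_err M B hM0 k
  have hCr : ∀ u, |(f u + r u) ^ k - f u ^ k| ≤ |C| * |r u| := fun u =>
    (hC _ _ (hfM u) (hB u)).trans (mul_le_mul_of_nonneg_right (le_abs_self C) (abs_nonneg _))
  have hφm : Measurable (fun u => (f u + r u) ^ k - f u ^ k) :=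
    ((hfc.measurable.add hr).pow_const k).sub (hfc.measurable.pow_const k)
  have hφB : ∀ u, |(f u + r u) ^ k - f u ^ k| ≤ |C| * B := fun u =>
    (hCr u).trans (mul_le_mul_of_nonneg_left (hB u) (abs_nonneg C))
  have hφ0 : Tendsto (fun u => (f u + r u) ^ k - f u ^ k) atTop (𝓝 0) := by
    refine squeeze_zero_norm (a := fun u => |C| * |r u|) (fun u => ?_) ?_
    · rw [Real.norm_eq_abs]
      exact hCr u
    · have := (h0.abs).const_mul |C|
      simpa using this
  have h1 := cesaro _ hφm _ hφB hφ0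
  have h2 := mean_pow g c k hc hs
  have h3 := h2.add h1
  rw [add_zero] at h3
  refine h3.congr fun U => ?_
  unfold mn
  rw [← mul_add, ← intervalIntegral.integral_add]
  · congr 1
    refine intervalIntegral.integral_congr fun u _ => ?_
    simp only [hf]
    ring
  · have : Continuous fun u => f u ^ k := hfc.pow k
    rw [hf] at this
    exact this.intervalIntegrable _ _
  · refine (intervalIntegrable_const (c := |C| * B)).mono_fun' hφm.aestronglyMeasurable ?_
    exact Eventually.of_forall fun u => by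
      show |(f u + r u) ^ k - f u ^ k| ≤ |C| * B
      exact hφB u

end Pool.Agent.Q38.LM
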